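import Mathlib

/-!
# Project SF (MP_d5570f_nt), piece SF-4: products of three primes determine them
-/

open Finset

namespace Pool.Agent.Helper94.SF

theorem triple_count (P L : Finset ℕ) (hP : ∀ p ∈ P, p.Prime) (hL : ∀ l ∈ L, l.Prime)
    (hd : Disjoint P L) (n : ℕ) :
    ((P ×ˢ L ×ˢ L).filter (fun w => w.1 * w.2.1 * w.2.2 = n)).card ≤ 2 := by
  classical
  rcases ((P ×ˢ L ×ˢ L).filter (fun w => w.1 * w.2.1 * w.2.2 = n)).eq_empty_or_nonempty with
    h0 | ⟨w0, hw0⟩
  · rw [h0]; simp
  · obtain ⟨p, l, l'⟩ := w0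
    simp only [Finset.mem_filter, Finset.mem_product] at hw0
    obtain ⟨⟨hp, hl, hl'⟩, hn⟩ := hw0
    have hpP := hP p hp
    have hlP := hL l hl
    have hl'P := hL l' hl'
    have hsub : (P ×ˢ L ×ˢ L).filter (fun w => w.1 * w.2.1 * w.2.2 = n)
        ⊆ ({(p, l, l'), (p, l', l)} : Finset (ℕ × ℕ × ℕ)) := by
      intro w hw
      obtain ⟨q, m, m'⟩ := w
      simp only [Finset.mem_filter, Finset.mem_product] at hw
      obtain ⟨⟨hq, hm, hm'⟩, hn'⟩ := hw
      have hqP := hP q hq
      have hmP := hL m hm
      have hm'P := hL m' hm'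
      have heq : q * m * m' = p * l * l' := by rw [hn', hn]
      have hpq : p = q := by
        have hdvd : p ∣ q * m * m' := by
          rw [heq, mul_assoc]; exact dvd_mul_right _ _
        rcases (Nat.Prime.dvd_mul hpP).mp hdvd with h1 | h1
        · rcases (Nat.Prime.dvd_mul hpP).mp h1 with h2 | h2
          · exact (Nat.prime_dvd_prime_iff_eq hpP hqP).mp h2
          · exfalso
            have h3 := (Nat.prime_dvd_prime_iff_eq hpP hmP).mp h2
            exact (Finset.disjoint_left.mp hd hp) (h3 ▸ hm)
        · exfalso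
          have h3 := (Nat.prime_dvd_prime_iff_eq hpP hm'P).mp h1
          exact (Finset.disjoint_left.mp hd hp) (h3 ▸ hm')
      subst hpq
      have heq2 : m * m' = l * l' := by
        have h4 : p * (m * m') = p * (l * l') := by
          rw [← mul_assoc, ← mul_assoc]; exact heq
        exact Nat.eq_of_mul_eq_mul_left hpP.pos h4
      have hml : m = l ∨ m = l' := by
        have hdvd : m ∣ l * l' := by rw [← heq2]; exact dvd_mul_right _ _
        rcases (Nat.Prime.dvd_mul hmP).mp hdvd with h1 | h1
        · exact Or.inl ((Nat.prime_dvd_prime_iff_eq hmP hlP).mp h1)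
        · exact Or.inr ((Nat.prime_dvd_prime_iff_eq hmP hl'P).mp h1)
      rcases hml with h1 | h1
      · subst h1
        have h5 : m' = l' := Nat.eq_of_mul_eq_mul_left hmP.pos heq2
        subst h5
        simp
      · subst h1
        have h5 : m' = l := by
          have h6 : m * m' = m * l := by rw [heq2, mul_comm]
          exact Nat.eq_of_mul_eq_mul_left hmP.pos h6
        subst h5
        simp
    calc ((P ×ˢ L ×ˢ L).filter (fun w => w.1 * w.2.1 * w.2.2 = n)).card
        ≤ ({(p, l, l'), (p, l', l)} : Finset (ℕ × ℕ × ℕ)).card := Finset.card_le_card hsub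
      _ ≤ 2 := Finset.card_le_two

end Pool.Agent.Helper94.SF
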